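import Pool.Agent.H23.CM4.Targets

/-!
# CM4, row D_SFS: the sum over the squarefull ideals
-/

set_option autoImplicit false

open NumberField MeasureTheory Set Filter Complex
open scoped nonZeroDivisors Real
open Pool.Agent.H23.CM4
open Pool.Agent.H65.CM4 (Sq nm dg)

namespace Pool.Agent.H91.CM4

section Ideals

variable {k : Type} [Field k] [NumberField k]

theorem absNorm_ne_zero' {I : Ideal (𝓞 k)} (h : I ≠ ⊥) : Ideal.absNorm I ≠ 0 :=
  fun h0 => h (Ideal.absNorm_eq_zero_iff.1 h0)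

/-- a nonzero ideal is a squarefree ideal times a square -/
theorem sq_mul_squarefree (n : ℕ) : ∀ B : Ideal (𝓞 k), B ≠ ⊥ → Ideal.absNorm B = n →
    ∃ e c : Ideal (𝓞 k), Squarefree e ∧ B = e * c ^ 2 := by
  induction n using Nat.strong_induction_on with
  | _ n ih =>
    intro B hB hn
    by_cases hsq : Squarefree B
    · exact ⟨B, 1, hsq, by rw [one_pow, mul_one]⟩
    · unfold Squarefree at hsq
      push Not at hsq
      obtain ⟨x, ⟨B', hB'⟩, hx⟩ := hsq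
      have hx0 : x ≠ ⊥ := by
        rintro rfl
        exact hB (by rw [hB']; simp)
      have hB0 : B' ≠ ⊥ := by
        rintro rfl
        exact hB (by rw [hB']; simp)
      have h1 : Ideal.absNorm x ≠ 1 := fun h => hx (by
        rw [Ideal.isUnit_iff]; exact Ideal.absNorm_eq_one_iff.1 h)
      have h2 : Ideal.absNorm x ≠ 0 := absNorm_ne_zero' hx0
      have h3 : Ideal.absNorm B' ≠ 0 := absNorm_ne_zero' hB0
      have h4 : n = Ideal.absNorm x * Ideal.absNorm x * Ideal.absNorm B' := by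
        rw [← hn, hB', map_mul, map_mul]
      have h5 : Ideal.absNorm B' < n := by
        rw [h4]
        have : 2 ≤ Ideal.absNorm x := by omega
        have : 1 < Ideal.absNorm x * Ideal.absNorm x := by nlinarith
        nlinarith [Nat.pos_of_ne_zero h3]
      obtain ⟨e, c, he, hc⟩ := ih _ h5 B' hB0 rfl
      refine ⟨e, x * c, he, ?_⟩
      rw [hB', hc]
      ring

theorem decomp (b : ℕ) (B : Ideal (𝓞 k)) (hB : B ≠ ⊥) (hF : Full b B) :
    ∃ E A D : Ideal (𝓞 k), E ∣ Ideal.span {(b : 𝓞 k)} ∧ A ≠ ⊥ ∧ D ≠ ⊥ ∧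
      B = E * A ^ 2 * D ^ 3 := by
  obtain ⟨e, c, he, hBe⟩ := sq_mul_squarefree _ B hB rfl
  have hdvd : e ⊔ Ideal.span {(b : 𝓞 k)} ∣ e := Ideal.dvd_iff_le.2 le_sup_left
  obtain ⟨e1, he1⟩ := hdvd
  have he10 : e1 ≠ ⊥ := by
    rintro rfl
    apply hB
    rw [hBe, he1]
    simp
  have key : e1 ∣ c := by
    have hg : e1 ⊔ c ∣ e1 := Ideal.dvd_iff_le.2 le_sup_left
    obtain ⟨h, hh⟩ := hg
    have hh0 : h ≠ ⊥ := by
      rintro rfl
      apply he10
      rw [hh]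
      simp
    by_cases htop : h = ⊤
    · rw [htop, Ideal.mul_top] at hh
      rw [hh]
      exact Ideal.dvd_iff_le.2 le_sup_right
    · exfalso
      obtain ⟨P, hP, hle⟩ := Ideal.exists_le_maximal h htop
      have hP0 : P ≠ ⊥ := by
        rintro rfl
        exact hh0 (le_bot_iff.1 hle)
      have hPh : P ∣ h := Ideal.dvd_iff_le.2 hle
      have hPe1 : P ∣ e1 := by
        rw [hh]
        exact hPh.mul_left _
      have hPe : P ∣ e := by
        rw [he1]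
        exact hPe1.mul_left _
      have hPB : P ∣ B := by
        rw [hBe]
        exact hPe.mul_right _
      have hnu : ¬ IsUnit P := by
        rw [Ideal.isUnit_iff]
        exact hP.ne_top
      have hPp : Prime P := Ideal.prime_of_isPrime hP0 hP.isPrime
      rcases hF P hP.isPrime hPB with h2 | h2
      · by_cases hPc : P ∣ c
        · have h3 : P ∣ e1 ⊔ c :=
            Ideal.dvd_iff_le.2 (sup_le (Ideal.dvd_iff_le.1 hPe1) (Ideal.dvd_iff_le.1 hPc))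
          have h4 : P * P ∣ e := by
            have h5 : P * P ∣ e1 := by
              rw [hh]
              exact mul_dvd_mul h3 hPh
            rw [he1]
            exact h5.mul_left _
          exact hnu (he P h4)
        · have h3 : ¬ P ∣ c ^ 2 := fun h4 => hPc (hPp.dvd_of_dvd_pow h4)
          rw [hBe] at h2
          have h4 : P ^ 2 ∣ e := hPp.pow_dvd_of_dvd_mul_right 2 h3 h2
          rw [pow_two] at h4
          exact hnu (he P h4)
      · have h3 : P ∣ e ⊔ Ideal.span {(b : 𝓞 k)} := by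
          refine Ideal.dvd_iff_le.2 (sup_le (Ideal.dvd_iff_le.1 hPe) ?_)
          rw [Ideal.span_le, Set.singleton_subset_iff]
          exact h2
        have h4 : P * P ∣ e := by
          rw [he1]
          exact mul_dvd_mul h3 hPe1
        exact hnu (he P h4)
  obtain ⟨c1, hc1⟩ := key
  have hBf : B = (e ⊔ Ideal.span {(b : 𝓞 k)}) * c1 ^ 2 * e1 ^ 3 := by
    calc B = e * c ^ 2 := hBe
      _ = ((e ⊔ Ideal.span {(b : 𝓞 k)}) * e1) * (e1 * c1) ^ 2 := by rw [← he1, ← hc1]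
      _ = _ := by ring
  refine ⟨e ⊔ Ideal.span {(b : 𝓞 k)}, c1, e1, Ideal.dvd_iff_le.2 le_sup_right, ?_, he10, hBf⟩
  rintro rfl
  apply hB
  rw [hBf]
  simp

end Ideals

theorem pf_SFS (hJDM : T_JDM) (hDSM : T_DSM) : T_SFS := by
  classical
  intro k _ _ b ε hb hε
  obtain ⟨hJd, -, hnm1, hnmm, -⟩ := hJDM k
  obtain ⟨-, -, hsum⟩ := hDSM k
  have hpos : ∀ I : Ideal (𝓞 k), 0 ≤ nm I := fun I => Nat.cast_nonneg _
  set σ : ℝ := 1 / 2 + ε with hσ
  have s2 := hsum (2 * σ) (by rw [hσ]; linarith)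
  have s3 := hsum (3 * σ) (by rw [hσ]; linarith)
  have hbb : Ideal.span {(b : 𝓞 k)} ≠ ⊥ := by
    rw [Ne, Ideal.span_singleton_eq_bot]
    exact_mod_cast hb.ne'
  set F : Finset (Ideal (𝓞 k)) := Jd k (nm (Ideal.span {(b : 𝓞 k)})) with hFdef
  have hFmem : ∀ E : Ideal (𝓞 k), E ∣ Ideal.span {(b : 𝓞 k)} → E ∈ F := by
    intro E hE
    obtain ⟨E', hE'⟩ := hE
    have h1 : E ≠ ⊥ := by
      rintro rfl
      exact hbb (by rw [hE']; simp)
    have h2 : E' ≠ ⊥ := by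
      rintro rfl
      exact hbb (by rw [hE']; simp)
    rw [hFdef, hJd]
    refine ⟨h1, ?_⟩
    rw [hE', hnmm]
    exact le_mul_of_one_le_right (hpos E) (hnm1 E' h2)
  set Z2 : ℝ := ∑' J : (Ideal (𝓞 k))⁰, nJ J ^ (-(2 * σ)) with hZ2
  set Z3 : ℝ := ∑' J : (Ideal (𝓞 k))⁰, nJ J ^ (-(3 * σ)) with hZ3
  have hnJ : ∀ J : (Ideal (𝓞 k))⁰, 0 ≤ nJ J := fun J => Nat.cast_nonneg _
  have hZ2p : 0 ≤ Z2 := tsum_nonneg fun J => Real.rpow_nonneg (hnJ J) _
  have hZ3p : 0 ≤ Z3 := tsum_nonneg fun J => Real.rpow_nonneg (hnJ J) _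
  refine ⟨F.card * (Z2 * Z3) + 1, by positivity, ?_⟩
  intro x hx
  have hmem : ∀ B ∈ (Jd k x).filter (Full b), B ≠ ⊥ ∧ nm B ≤ x ∧ Full b B := by
    intro B hB
    obtain ⟨h1, h2⟩ := Finset.mem_filter.1 hB
    obtain ⟨h3, h4⟩ := (hJd x B).1 h1
    exact ⟨h3, h4, h2⟩
  have hch : ∀ B : Ideal (𝓞 k), ∃ p : Ideal (𝓞 k) × ((Ideal (𝓞 k))⁰ × (Ideal (𝓞 k))⁰),
      B ∈ (Jd k x).filter (Full b) → p.1 ∈ F ∧
        B = p.1 * (p.2.1 : Ideal (𝓞 k)) ^ 2 * (p.2.2 : Ideal (𝓞 k)) ^ 3 := by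
    intro B
    by_cases hB : B ∈ (Jd k x).filter (Full b)
    · obtain ⟨h1, -, h2⟩ := hmem B hB
      obtain ⟨E, A, D, h3, h4, h5, h6⟩ := decomp b B h1 h2
      exact ⟨(E, (⟨A, mem_nonZeroDivisors_iff_ne_zero.2 h4⟩,
        ⟨D, mem_nonZeroDivisors_iff_ne_zero.2 h5⟩)), fun _ => ⟨hFmem E h3, h6⟩⟩
    · exact ⟨(⊤, (1, 1)), fun h => absurd h hB⟩
  choose g hg using hch
  have hE1 : ∀ B ∈ (Jd k x).filter (Full b), 1 ≤ nm (g B).1 := by
    intro B hB
    have h1 := (hg B hB).1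
    rw [hFdef, hJd] at h1
    exact hnm1 _ h1.1
  have hval : ∀ B ∈ (Jd k x).filter (Full b), nm B ^ (-(1 / 2) : ℝ) ≤
      x ^ ε * (nJ (g B).2.1 ^ (-(2 * σ)) * nJ (g B).2.2 ^ (-(3 * σ))) := by
    intro B hB
    obtain ⟨h1, h2, -⟩ := hmem B hB
    have h3 : 1 ≤ nm B := hnm1 B h1
    have h4 : nm B ^ (-(1 / 2) : ℝ) = nm B ^ ε * nm B ^ (-σ) := by
      rw [← Real.rpow_add (by linarith), hσ]
      congr 1
      ring
    have h5 : nm B ^ ε ≤ x ^ ε := Real.rpow_le_rpow (by linarith) h2 hε.le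
    have hA : (1 : ℝ) ≤ nJ (g B).2.1 := hnm1 _ (nonZeroDivisors.coe_ne_zero _)
    have hD : (1 : ℝ) ≤ nJ (g B).2.2 := hnm1 _ (nonZeroDivisors.coe_ne_zero _)
    have h6 : nm B = nm (g B).1 * nJ (g B).2.1 ^ 2 * nJ (g B).2.2 ^ 3 := by
      conv_lhs => rw [(hg B hB).2]
      rw [pow_two, pow_succ, pow_two, hnmm, hnmm, hnmm, hnmm, hnmm]
      unfold nJ nm
      ring
    have h7 : nm B ^ (-σ) ≤ nJ (g B).2.1 ^ (-(2 * σ)) * nJ (g B).2.2 ^ (-(3 * σ)) := by
      have hE := hE1 B hB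
      have hσ0 : 0 < σ := by rw [hσ]; linarith
      have h8 : (nJ (g B).2.1 ^ 2 * nJ (g B).2.2 ^ 3) ^ (-σ) =
          nJ (g B).2.1 ^ (-(2 * σ)) * nJ (g B).2.2 ^ (-(3 * σ)) := by
        rw [Real.mul_rpow (by positivity) (by positivity), ← Real.rpow_natCast,
          ← Real.rpow_natCast, ← Real.rpow_mul (by linarith), ← Real.rpow_mul (by linarith)]
        congr 1 <;> (congr 1; push_cast; ring)
      rw [← h8]
      refine Real.rpow_le_rpow_of_nonpos (by positivity) ?_ (by linarith)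
      rw [h6, mul_assoc]
      exact le_mul_of_one_le_left (by positivity) hE
    rw [h4]
    exact mul_le_mul h5 h7 (by positivity) (by positivity)
  have hinj : Set.InjOn g ((Jd k x).filter (Full b) : Finset (Ideal (𝓞 k))) := by
    intro B hB B' hB' e
    rw [(hg B hB).2, (hg B' hB').2, e]
  set h : Ideal (𝓞 k) × ((Ideal (𝓞 k))⁰ × (Ideal (𝓞 k))⁰) → ℝ :=
    fun p => nJ p.2.1 ^ (-(2 * σ)) * nJ p.2.2 ^ (-(3 * σ)) with hh
  have hhp : ∀ p, 0 ≤ h p := fun p =>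
    mul_nonneg (Real.rpow_nonneg (hnJ _) _) (Real.rpow_nonneg (hnJ _) _)
  set S := (Jd k x).filter (Full b) with hS
  have h5 : ∑ B ∈ S, h (g B) = ∑ p ∈ S.image g, h p :=
    (Finset.sum_image (f := h) hinj).symm
  set TA := (S.image g).image (fun p => p.2.1) with hTA
  set TD := (S.image g).image (fun p => p.2.2) with hTD
  have h6 : S.image g ⊆ F ×ˢ (TA ×ˢ TD) := by
    intro p hp
    rw [Finset.mem_product, Finset.mem_product]
    refine ⟨?_, Finset.mem_image_of_mem _ hp, Finset.mem_image_of_mem _ hp⟩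
    obtain ⟨B, hB, rfl⟩ := Finset.mem_image.1 hp
    exact (hg B hB).1
  have h7 : ∑ p ∈ S.image g, h p ≤ F.card * (Z2 * Z3) := by
    calc ∑ p ∈ S.image g, h p ≤ ∑ p ∈ F ×ˢ (TA ×ˢ TD), h p :=
          Finset.sum_le_sum_of_subset_of_nonneg h6 fun p _ _ => hhp p
      _ = ∑ E ∈ F, ∑ A ∈ TA, ∑ D ∈ TD, nJ A ^ (-(2 * σ)) * nJ D ^ (-(3 * σ)) := by
          rw [Finset.sum_product]
          refine Finset.sum_congr rfl fun E _ => ?_
          rw [Finset.sum_product]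
      _ = F.card * ((∑ A ∈ TA, nJ A ^ (-(2 * σ))) * ∑ D ∈ TD, nJ D ^ (-(3 * σ))) := by
          rw [Finset.sum_const, nsmul_eq_mul, Finset.sum_mul_sum]
      _ ≤ F.card * (Z2 * Z3) := by
          refine mul_le_mul_of_nonneg_left ?_ (Nat.cast_nonneg _)
          refine mul_le_mul ?_ ?_ ?_ hZ2p
          · exact s2.sum_le_tsum TA fun J _ => Real.rpow_nonneg (hnJ J) _
          · exact s3.sum_le_tsum TD fun J _ => Real.rpow_nonneg (hnJ J) _
          · exact Finset.sum_nonneg fun J _ => Real.rpow_nonneg (hnJ J) _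
  have hxe : 0 ≤ x ^ ε := by positivity
  calc ∑ B ∈ S, nm B ^ (-(1 / 2) : ℝ) ≤ ∑ B ∈ S, x ^ ε * h (g B) := Finset.sum_le_sum hval
    _ = x ^ ε * ∑ B ∈ S, h (g B) := by rw [Finset.mul_sum]
    _ ≤ x ^ ε * (F.card * (Z2 * Z3)) := by
        rw [h5]
        exact mul_le_mul_of_nonneg_left h7 hxe
    _ ≤ (F.card * (Z2 * Z3) + 1) * x ^ ε := by nlinarith

end Pool.Agent.H91.CM4
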